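import Pool.Agent.Lib.MP_0d7657_an.Coin.Ex

set_option autoImplicit false

namespace Pool.Agent.Results.MP_0d7657_an.Characterization

open Polynomial Pool.Agent.NRZ Pool.Agent.NRZ.Coin

/-- Characterization of all linear operators `T` on `π_n` which do not increase the number of
non-real zeros: this holds if and only if all non-zero polynomials in the image of `T` have fewer
than `rank T` non-real zeros and `T` passes the tests of order `r` for every odd
`r ≤ rank T - 2`: for all real `y`, all real `b₁, …, b_d` (`d = n + 1 - rank T`), all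
`0 ≤ s < rank T - r` and all `h ∈ π_r`, the polynomial `T[(x - b₁) ⋯ (x - b_d) (x - y)^s h]` is `0`
or has fewer than `r` non-real zeros.

For bijective `T` these conditions are the non-vanishing of explicit determinants:
`det (h ↦ T[(x - y)^s h] mod g : π_r → π_r) ≠ 0` for all odd `r`, all `0 ≤ s ≤ n - r`, all real `y`
and all monic `g` of degree `r + 1` without real zeros. -/
theorem result (n : ℕ) (T : PiN n →ₗ[ℝ] PiN n) :
    (NonIncreasing T ↔ (∀ p : PiN n, T p ≠ 0 → Zc (T p : ℝ[X]) < rk T) ∧
      ∀ r, Odd r → r + 2 ≤ rk T → Tests r T) ∧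
    (Function.Bijective T →
      (NonIncreasing T ↔ ∀ (r s : ℕ) (y : ℝ) (g : ℝ[X]), Odd r → r + s ≤ n → g.Monic →
        g.natDegree = r + 1 → (∀ x : ℝ, g.eval x ≠ 0) → (testMatrix T r s y g).det ≠ 0)) := by
  refine ⟨nonIncreasing_iff, fun hT => ?_⟩
  rw [nonIncreasing_iff_level]
  exact ⟨fun h r s y g hr => (level_iff_det hr hT).1 (h r hr) s y g,
    fun h r hr => (level_iff_det hr hT).2 fun s y g => h r s y g hr⟩

end Pool.Agent.Results.MP_0d7657_an.Characterization
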