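import Pool.Agent.Lib.MP_0d7657_an.Semi

set_option autoImplicit false

namespace Pool.Agent.Results.MP_0d7657_an.Semigroups

open Pool.Agent.NRZ

/-- Complete classification of the one-parameter semigroups of non-real-zero non-increasing
operators on `π_n`. For a linear operator `A` on `π_n` the following are equivalent:
(1) `e^{tA}` is non-real-zero non-increasing for all `t ≥ 0`;
(2) `e^{tA}` preserves real-rootedness for all `t ≥ 0`;
(3) `A = -c D² + b D + d` for polynomials `c, b, d` with `c ≥ 0` on `ℝ`. -/
theorem result (n : ℕ) (A : PiN n →ₗ[ℝ] PiN n) :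
    ((∀ t : ℝ, 0 ≤ t → NonIncreasing (expo A t)) ↔ IsSecondOrder A) ∧
    ((∀ t : ℝ, 0 ≤ t → PreservesRealRooted (expo A t)) ↔ IsSecondOrder A) :=
  ⟨(semigroup_classification A).out 0 2, (semigroup_classification A).out 1 2⟩

end Pool.Agent.Results.MP_0d7657_an.Semigroups
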